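import Pool.Agent.helper4.GA.Spec
import Pool.Agent.helper30.Cant.LAM1

set_option autoImplicit false

namespace Pool.Agent.GA

open Finset
open Pool.Agent.helper32.Cant

theorem LMT_mu {n : ℕ} (c : Cfg n) (z : Sp n) : 0 ≤ mu c z := by
  unfold mu
  split_ifs
  · positivity
  · exact le_rfl

theorem LMT_lam {n : ℕ} (c : Cfg n) {z : Sp n} (hz : 0 < mu c z) (m : ℕ) (hm : m ≤ 2 * n) :
    lam c m z ≤ m * Real.log 3 := by
  induction m with
  | zero => rw [lam_zero c hz]; simp
  | succ m ih =>
    have h1 := ih (by omega)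
    have h2 := lam_succ_le c hz hm
    push_cast
    linarith

theorem LMT : LMT_stmt := by
  intro n c k A S hn hA hk hS
  have h1 : ex (mu c) (fun z => Uf c (obs c (k - A) 0) k z * ind (Lam c (S / n) A k z)) =
      ex (mu c) (fun _ => (0 : ℝ)) := by
    apply ex_congr (LMT_mu c)
    intro z hz
    have h2 : ¬ Lam c (S / n) A k z := by
      rintro ⟨h3, -⟩
      have h4 := LMT_lam c hz (k - A) (by omega)
      have h5 : (n : ℝ) ≠ 0 := by
        have : (1 : ℝ) ≤ n := by exact_mod_cast hn
        linarith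
      rw [div_mul_cancel₀ S h5] at h3
      linarith
    rw [ind_of_not h2, mul_zero]
  rw [h1]
  unfold ex
  simp

end Pool.Agent.GA
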